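import Pool.Agent.H51b.Stage

set_option autoImplicit false

namespace Pool.Agent.Results.MP_947bdc_al.UnboundedAllPrimes

open Classical in
/-- A finite group is normally monomial when the character of every irreducible complex
representation `V` is the character induced from a linear character `lam` of a normal subgroup
`N`: `V.character g = (1/|N|) * sum over x with x g x⁻¹ in N of lam (x g x⁻¹)`. -/
def NormallyMonomial (P : Type) [Group P] [Fintype P] : Prop :=
  ∀ V : FDRep ℂ P, CategoryTheory.Simple V →
    ∃ N : Subgroup P, N.Normal ∧ ∃ lam : N →* ℂˣ, ∀ g : P,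
      V.character g = (Nat.card N : ℂ)⁻¹ *
        ∑ x : P, (if h : x * g * x⁻¹ ∈ N then ((lam ⟨x * g * x⁻¹, h⟩ : ℂˣ) : ℂ) else 0)

/-- For every prime `p` the derived lengths of normally monomial `p`-groups are unbounded. -/
theorem result : ∀ (p : ℕ), p.Prime → ∀ d : ℕ,
    ∃ (P : Type) (_ : Group P) (_ : Fintype P), IsPGroup p P ∧ NormallyMonomial P ∧
      derivedSeries P d ≠ ⊥ := by
  intro p hp d
  have : Fact p.Prime := ⟨hp⟩
  exact Pool.Agent.H51b.exists_normally_monomial p d

end Pool.Agent.Results.MP_947bdc_al.UnboundedAllPrimes
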